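import Pool.Agent.Helper67_PP.Stmts
import Pool.Agent.Helper74_PP.Cov

/-!
# Squad AWC, module CVR: existence of the cover
-/

open scoped BigOperators

noncomputable section

namespace Pool.Agent.PP.H19

open Pool.Agent.PP Pool.Agent.PP.H67

theorem le_stC {F G : Type} [Field F] [Group G] {C : Subgroup G} (hC : C.Normal) {n : ℕ}
    (ρ : C →* Matrix (Fin n) (Fin n) F) : C ≤ stC hC (tr ρ) := by
  intro g hg c
  have e : (⟨g * c * g⁻¹, hC.conj_mem c c.2 g⟩ : C) = ⟨g, hg⟩ * c * (⟨g, hg⟩ : C)⁻¹ := rfl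
  rw [e, tr, tr, map_mul, map_mul, Matrix.trace_mul_comm, ← mul_assoc, ← map_mul, inv_mul_cancel,
    map_one, one_mul]

theorem cvr : CvrStmt := by
  intro ℓ F _ hF G _ _ C hC n ρ hρ
  have hle : C ≤ stC hC (tr ρ) := le_stC hC ρ
  let q : C.subgroupOf (stC hC (tr ρ)) ≃* C := Subgroup.subgroupOfEquivOfLe hle
  obtain ⟨E, hE, hfin, π, α, h1, h2, h3, h4, h5, h6, h7⟩ := H74.covStmt H20.ibc ℓ F hF
    (stC hC (tr ρ)) (C.subgroupOf (stC hC (tr ρ))) n (ρ.comp q.toMonoidHom)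
    (Subgroup.Normal.subgroupOf hC _) (irr_comp hρ q.toMonoidHom q.surjective) (by
      intro g c c' hcc
      have h := g.2 (q c)
      have e : q c' = ⟨(g : G) * (q c : C) * (g : G)⁻¹, hC.conj_mem _ (q c).2 g⟩ :=
        Subtype.ext (congrArg (fun x : stC hC (tr ρ) => (x : G)) hcc)
      show tr ρ (q c') = tr ρ (q c)
      rw [e]
      exact h)
  let p : E →* G := (stC hC (tr ρ)).subtype.comp π
  have hp : ∀ x, p x = 1 → π x = 1 := fun x hx => Subtype.ext hx
  let K : Subgroup E :=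
    { carrier := {x | ∃ c : C, p x = c ∧ α x = ρ c}
      one_mem' := ⟨1, by rw [map_one]; rfl, by rw [map_one, map_one]⟩
      mul_mem' := by
        rintro x y ⟨c, hc, hc'⟩ ⟨d, hd, hd'⟩
        exact ⟨c * d, by rw [map_mul, hc, hd]; rfl, by rw [map_mul, map_mul, hc', hd']⟩
      inv_mem' := by
        rintro x ⟨c, hc, hc'⟩
        refine ⟨c⁻¹, by rw [map_inv, hc]; rfl, ?_⟩
        calc α x⁻¹ = α x⁻¹ * (ρ c * ρ c⁻¹) := by
              rw [← map_mul, mul_inv_cancel, map_one, mul_one]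
          _ = ρ c⁻¹ := by
              rw [← hc', ← mul_assoc, ← map_mul, inv_mul_cancel, map_one, one_mul] }
  refine ⟨E, hE, hfin, p, α, K, ⟨?_⟩, ?_⟩
  · rintro x ⟨c, hc, hc'⟩ y
    have hcm : p y * c * (p y)⁻¹ ∈ C := hC.conj_mem c c.2 (p y)
    refine ⟨⟨p y * c * (p y)⁻¹, hcm⟩, by rw [map_mul, map_mul, map_inv, hc], ?_⟩
    have h := h6 y (q.symm c) (q.symm ⟨p y * c * (p y)⁻¹, hcm⟩) (Subtype.ext rfl)
    have e1 : (ρ.comp q.toMonoidHom) (q.symm c) = ρ c := by
      show ρ (q (q.symm c)) = ρ c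
      rw [MulEquiv.apply_symm_apply]
    have e2 : (ρ.comp q.toMonoidHom) (q.symm ⟨p y * c * (p y)⁻¹, hcm⟩) =
        ρ ⟨p y * c * (p y)⁻¹, hcm⟩ := by
      show ρ (q (q.symm _)) = ρ _
      rw [MulEquiv.apply_symm_apply]
    rw [e1, e2] at h
    rw [map_mul, map_mul, hc', h, mul_assoc, ← map_mul, mul_inv_cancel, map_one, mul_one]
  · refine ⟨hρ, hle, ?_, fun x hx => h2 x (hp x hx), ?_, fun x hx => h4 x (hp x hx),
      fun x hx => h5 x (hp x hx), ?_, ?_, fun x => Iff.rfl⟩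
    · ext g
      constructor
      · rintro ⟨x, rfl⟩
        exact (π x).2
      · intro hg
        obtain ⟨x, hx⟩ := h1 ⟨g, hg⟩
        exact ⟨x, congrArg (fun y : stC hC (tr ρ) => (y : G)) hx⟩
    · have e : p.ker = π.ker := by
        ext x
        exact ⟨fun hx => hp x hx, fun hx => by
          show ((π x : stC hC (tr ρ)) : G) = 1
          rw [MonoidHom.mem_ker.1 hx]; rfl⟩
      rw [e]
      exact h3
    · intro x c c' hcc
      have h := h6 x (q.symm c) (q.symm c') (Subtype.ext hcc)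
      have e1 : (ρ.comp q.toMonoidHom) (q.symm c) = ρ c := by
        show ρ (q (q.symm c)) = ρ c
        rw [MulEquiv.apply_symm_apply]
      have e2 : (ρ.comp q.toMonoidHom) (q.symm c') = ρ c' := by
        show ρ (q (q.symm c')) = ρ c'
        rw [MulEquiv.apply_symm_apply]
      rw [e1, e2] at h
      exact h
    · intro c
      obtain ⟨x, hx, hx'⟩ := h7 (q.symm c)
      refine ⟨x, congrArg (fun y : stC hC (tr ρ) => (y : G)) hx, ?_⟩
      rw [hx']
      show ρ (q (q.symm c)) = ρ c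
      rw [MulEquiv.apply_symm_apply]

end Pool.Agent.PP.H19
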